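import Pool.Agent.Helper76.TW.Goals
import Pool.Agent.Helper85.RR.S1
import Pool.Agent.Helper33.RR.GT

/-!
# MP_74f661_nt, project TW, packets S2 and GT2 (mean squares)
-/

set_option autoImplicit false

open Finset Filter Topology

open scoped Classical

namespace Pool.Agent.Helper62.TW

open Pool.Agent.Helper76.TW
open Pool.Agent.Helper88.PP (pr Rg om Sf SS uu vv ee LA VV QQ cost nc dd)
open Pool.Agent.Helper88.RR (gg ab TB nz Db VM)
open Pool.Agent.Helper88.GM (NI XI)
open Pool.Agent.Helper88.TU (Su)
open Pool.Agent.Helper85.RR (mem_TB card_TB prod_TB nz_le gg_zero)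
open Pool.Agent.Helper33.RR (om_nonneg VM_nonneg VM_ge_one VV_nonneg ab_nonneg sum_ab Db_nonneg
  Db_le Db_zero card_labels prod_labels gg_nonneg gg_succ)

/-- separated points of `[1, y]` are at most `y / 2` -/
theorem two_card {y : ℕ} {P : Finset ℕ} (h : Sep y P) : 2 * P.card ≤ y := by
  have h1 : Disjoint P (P.image (fun i => i + 2)) := by
    rw [Finset.disjoint_left]
    intro j hj hj'
    obtain ⟨i, hi, rfl⟩ := Finset.mem_image.1 hj'
    exact h.2 i hi _ hj rfl
  have h2 : (P.image (fun i => i + 2)).card = P.card :=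
    Finset.card_image_of_injective _ (fun a b hab => by simpa using hab)
  have h3 : P ∪ P.image (fun i => i + 2) ⊆ Icc 1 y := by
    intro j hj
    rw [Finset.mem_union] at hj
    rw [Finset.mem_Icc]
    rcases hj with hj | hj
    · have := h.1 j hj
      omega
    · obtain ⟨i, hi, rfl⟩ := Finset.mem_image.1 hj
      have := h.1 i hi
      omega
  have h4 := Finset.card_le_card h3
  rw [Finset.card_union_of_disjoint h1, h2, Nat.card_Icc] at h4
  omega

theorem gg_succ2 {y z k : ℕ} (hk : 2 * (k + 1) ≤ y) :
    gg y z (2 * (k + 1)) ≤ om y z ^ 2 * gg y z (2 * k) := by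
  have h1 : gg y z (2 * k + 1 + 1) ≤ om y z * gg y z (2 * k + 1) := gg_succ (by omega)
  have h2 : gg y z (2 * k + 1) ≤ om y z * gg y z (2 * k) := gg_succ (by omega)
  calc gg y z (2 * (k + 1)) = gg y z (2 * k + 1 + 1) := by ring_nf
    _ ≤ om y z * gg y z (2 * k + 1) := h1
    _ ≤ om y z * (om y z * gg y z (2 * k)) := mul_le_mul_of_nonneg_left h2 (om_nonneg y z)
    _ = om y z ^ 2 * gg y z (2 * k) := by ring

theorem XQ_nonneg (x Q : ℕ) : 0 ≤ XQ x Q := by
  unfold XQ XI
  have h : (x : ℝ) ≤ ((32 * x : ℕ) : ℝ) := by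
    push_cast
    have : (0 : ℝ) ≤ x := Nat.cast_nonneg x
    linarith
  have h2 : (0 : ℝ) ≤ ((32 * x : ℕ) : ℝ) - x := by linarith
  positivity

theorem W2_eq (m q M z y : ℕ) (P : Finset ℕ) (n : ℕ) : W2 m q M z y P n =
    ∑ r ∈ TB m q M z P, (∏ i : P, (if r i = 0 then 1 else - ab m q z (r i))) *
      ∏ i : P, vR (R2 y z) (r i) (n + (i : ℕ)) := by
  unfold W2
  refine Finset.sum_congr rfl fun r _ => ?_
  rw [Finset.prod_mul_distrib]

theorem D2_eq (m q M z y : ℕ) (P : Finset ℕ) : D2 m q M z y P =
    ∑ r ∈ TB m q M z P, (∏ i : P, (if r i = 0 then 1 else - ab m q z (r i))) ^ 2 *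
      (gg y z (2 * nz r) * ∏ i : P, (if r i = 0 then 1 else (Nat.totient (r i) : ℝ))) := by
  unfold D2 wb2
  refine Finset.sum_congr rfl fun r _ => ?_
  rw [mul_left_comm, ← Finset.prod_pow, ← Finset.prod_mul_distrib]
  congr 1
  refine Finset.prod_congr rfl fun i _ => ?_
  split_ifs <;> ring

theorem wb2_nonneg {m q y z : ℕ} {P : Finset ℕ} (hP : 2 * P.card ≤ y) (r : P → ℕ) :
    0 ≤ wb2 m q y z r := by
  unfold wb2
  have h1 := nz_le r
  refine mul_nonneg (gg_nonneg (by omega)) (Finset.prod_nonneg fun i _ => ?_)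
  split_ifs
  · exact zero_le_one
  · positivity

theorem one_le_D2 (m q M z y : ℕ) {P : Finset ℕ} (hP : 2 * P.card ≤ y) :
    1 ≤ D2 m q M z y P := by
  unfold D2
  have h0 : (fun _ : P => 0) ∈ TB m q M z P := by
    unfold TB
    rw [Finset.mem_filter, Fintype.mem_piFinset]
    exact ⟨fun i => Finset.mem_insert_self _ _, by simp [cost]⟩
  have h1 : nz (fun _ : P => 0) = 0 := by
    unfold nz
    simp
  have h2 : wb2 m q y z (fun _ : P => 0) = 1 := by
    unfold wb2
    rw [h1, mul_zero, gg_zero]
    simp
  have h3 := Finset.single_le_sum (f := fun r : P → ℕ => wb2 m q y z r) (s := TB m q M z P)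
    (fun r _ => wb2_nonneg hP r) h0
  exact h2.ge.trans h3

/-- Packet `S2`. -/
theorem s2 (h1 : StmtTG2) : Pool.Agent.Helper76.TW.StmtS2 := by
  obtain ⟨c, hc, E0, hE0⟩ := h1
  refine ⟨c, hc, max E0 1, fun E z x y hE hsr Q b hI m q hm hqm hV hK P hP hPo => ?_⟩
  have hE1 : 1 ≤ E := le_of_max_le_right hE
  have hz2 : 2 ≤ z := by
    have h1 : (1 : ℝ) + 1 ≤ z := by
      have h2 : (1 : ℝ) ≤ E := by exact_mod_cast hE1
      have h3 := Real.add_one_le_exp (E : ℝ)
      have h4 := hsr.1
      linarith
    have h5 : ((2 : ℕ) : ℝ) ≤ z := by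
      push_cast
      linarith
    exact_mod_cast h5
  refine ⟨one_le_D2 m q (E / 16) z y (two_card hP), ?_⟩
  have key := hE0 E z x y (le_of_max_le_left hE) hsr Q b hI m q (E / 16 / m + 1) (E / 16) hm
    hqm hV hK (Nat.div_le_div_left (by norm_num) (by norm_num)) le_rfl
    P hP hPo (TB m q (E / 16) z P)
    (fun r => ∏ i : P, (if r i = 0 then 1 else - ab m q z (r i))) ∅ ∅ (by simp) (by simp)
    (by simp)
    (fun r hr i _ _ => (mem_TB hr).1 i) (fun r hr i hi => absurd hi (Finset.notMem_empty i))
    (fun r hr i hi => absurd hi (Finset.notMem_empty i))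
    (fun r hr => (card_TB hm hz2 hr).trans (Nat.le_succ _))
    (fun r hr => (prod_TB hz2 hr).trans (Nat.pow_le_pow_right (by omega) (by omega)))
    (fun r hr => by
      rw [Finset.abs_prod]
      refine Finset.prod_le_prod (fun i _ => abs_nonneg _) fun i _ => ?_
      rw [if_neg (Finset.notMem_empty i), if_neg (Finset.notMem_empty i)]
      split_ifs
      · rw [abs_one]
      · rw [abs_neg, abs_of_nonneg (ab_nonneg _ _ _ _)])
  rw [D2_eq]
  simp only [W2_eq]
  refine key.trans ?_
  rw [Finset.card_empty, Nat.add_zero, pow_zero, mul_one]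

/-- Packet `GT2`. -/
theorem gt2 (hTG : StmtTG2) : StmtGT2 := by
  obtain ⟨c, hc, E0, hE0⟩ := hTG
  refine ⟨c, hc, max E0 16, ?_⟩
  intro E z x y hE hsr Q b hIn m q hm hqm hVV hK P hP hPc h
  have hE1 : E0 ≤ E := (le_max_left _ _).trans hE
  have hE2 : 16 ≤ E := (le_max_right _ _).trans hE
  set M : ℕ := E / 16 with hM
  have hM1 : 1 ≤ M := by omega
  have hz2 : 2 ≤ z := by
    have h1 := hsr.1
    have h2 : (2 : ℝ) ≤ Real.exp E := by
      have h3 := Real.add_one_le_exp (E : ℝ)
      have h4 : (16 : ℝ) ≤ E := by exact_mod_cast hE2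
      linarith
    exact_mod_cast h2.trans h1
  have hV : VV z m (q * m) ≠ 0 := by linarith
  have hVM := VM_ge_one hM1 hz2
  set Th : Finset (P → ℕ) := (TB m q M z P).filter (fun r => r h = 0) with hTh
  set S : Finset ℕ := SS z (z ^ M) with hS
  set co : ℕ → ℝ := fun r => if r = 0 then 1 else - ab m q z r with hco
  set cc : (P → ℕ) → ℝ := fun r' => Db m q M z (cost z (Function.update r' h 0)) *
    (1 / (VM M z * (Nat.totient (r' h) : ℝ))) * ∏ i ∈ univ.erase h, co (r' i) with hcc
  set T : Finset (P → ℕ) := (Th ×ˢ S).image (fun p => Function.update p.1 h p.2) with hT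
  have hinj : Set.InjOn (fun p : (P → ℕ) × ℕ => Function.update p.1 h p.2)
      ((Th ×ˢ S : Finset ((P → ℕ) × ℕ)) : Set ((P → ℕ) × ℕ)) := by
    rintro ⟨r, s⟩ hr ⟨r', s'⟩ hr' heq
    rw [mem_coe, mem_product] at hr hr'
    simp only [hTh, mem_filter] at hr hr'
    simp only at heq
    have h1 : s = s' := by
      have := congrFun heq h
      simpa using this
    have h2 : r = r' := by
      funext i
      by_cases hi : i = h
      · rw [hi, hr.1.2, hr'.1.2]
      · have := congrFun heq i
        simpa [Function.update_of_ne hi] using this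
    rw [h1, h2]
  have hupd0 : ∀ r ∈ Th, ∀ s, Function.update (Function.update r h s) h 0 = r := by
    intro r hr s
    rw [Function.update_idem]
    simp only [hTh, mem_filter] at hr
    rw [← hr.2, Function.update_eq_self]
  have hcardP : 2 * P.card ≤ y := two_card hP
  have hnz_le : ∀ r : P → ℕ, 2 * nz r ≤ y := by
    intro r
    have h1 := nz_le r
    omega
  have hnz_succ : ∀ r ∈ Th, ∀ s ∈ S, nz (Function.update r h s) = nz r + 1 := by
    intro r hr s hs
    have hr0 : r h = 0 := by
      simp only [hTh, mem_filter] at hr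
      exact hr.2
    have hs0 : s ≠ 0 := by
      simp only [hS, SS, mem_filter, mem_Ico] at hs
      omega
    unfold nz
    have h3 : (univ.filter (fun i => Function.update r h s i ≠ 0))
        = insert h (univ.filter (fun i => r i ≠ 0)) := by
      ext i
      rw [mem_insert]
      by_cases hih : i = h
      · subst hih
        simp [hs0]
      · simp [Function.update_of_ne hih, hih]
    rw [h3, Finset.card_insert_of_notMem]
    simp [hr0]
  have hTS' := hE0 E z x y hE1 hsr Q b hIn m q (M / m + 1) M hm hqm hVV hK (by omega) (by omega)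
    P hP hPc T cc {h} ∅ (by simp) (by simp) (by simp) ?_ ?_ ?_ ?_ ?_ ?_
  · -- conclusion
    have hGG : ∀ n, G2 m q M z y P h n = ∑ r ∈ T, cc r * ∏ i, vR (R2 y z) (r i) (n + (i : ℕ)) := by
      intro n
      rw [hT, Finset.sum_image hinj, Finset.sum_product]
      unfold G2
      refine Finset.sum_congr rfl fun r hr => Finset.sum_congr rfl fun s _ => ?_
      have hr0 : r h = 0 := by
        rw [hTh, mem_filter] at hr
        exact hr.2
      simp only [hcc]
      rw [hupd0 r hr s, Function.update_self]
      rw [← Finset.mul_prod_erase univ (fun i : P => vR (R2 y z) (Function.update r h s i) (n + (i : ℕ)))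
        (mem_univ h), Function.update_self]
      rw [← Finset.mul_prod_erase univ (fun i : P => ((if r i = 0 then 1 else - ab m q z (r i)) *
        vR (R2 y z) (r i) (n + (i : ℕ)))) (mem_univ h)]
      have e1 : ∏ i ∈ univ.erase h, co (Function.update r h s i)
          = ∏ i ∈ univ.erase h, co (r i) := by
        refine Finset.prod_congr rfl fun i hi => ?_
        rw [Function.update_of_ne (Finset.ne_of_mem_erase hi)]
      have e2 : ∏ i ∈ univ.erase h, vR (R2 y z) (Function.update r h s i) (n + (i : ℕ))
          = ∏ i ∈ univ.erase h, vR (R2 y z) (r i) (n + (i : ℕ)) := by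
        refine Finset.prod_congr rfl fun i hi => ?_
        rw [Function.update_of_ne (Finset.ne_of_mem_erase hi)]
      rw [e1, e2, hr0]
      have e3 : vR (R2 y z) 0 (n + (h : ℕ)) = 1 := by simp [vR]
      rw [e3, Finset.prod_mul_distrib]
      simp only [if_true, one_mul, hco]
      ring
    have hmain : ∑ r ∈ T, cc r ^ 2 *
        (gg y z (2 * nz r) * ∏ i, (if r i = 0 then 1 else (Nat.totient (r i) : ℝ))) ≤ om y z ^ 2 *
        ∑ r ∈ (TB m q M z P).filter (fun r => M < cost z r + q * m), wb2 m q y z r := by
      rw [hT, Finset.sum_image hinj, Finset.sum_product]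
      have hterm : ∀ r ∈ Th, ∀ s ∈ S, cc (Function.update r h s) ^ 2 *
          (gg y z (2 * nz (Function.update r h s)) * ∏ i, (if Function.update r h s i = 0 then 1
            else (Nat.totient (Function.update r h s i) : ℝ))) =
          (Db m q M z (cost z r) ^ 2 * (gg y z (2 * (nz r + 1)) * ∏ i : P,
            (if r i = 0 then 1 else ab m q z (r i) ^ 2 * (Nat.totient (r i) : ℝ)))) *
          ((1 / VM M z) ^ 2 * (1 / (Nat.totient s : ℝ))) := by
        intro r hr s hs
        have hr0 : r h = 0 := by
          simp only [hTh, mem_filter] at hr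
          exact hr.2
        have hs0 : s ≠ 0 := by
          simp only [hS, SS, mem_filter, mem_Ico] at hs
          omega
        have hs1 : (Nat.totient s : ℝ) ≠ 0 := by
          have : 0 < Nat.totient s := Nat.totient_pos.mpr (Nat.pos_of_ne_zero hs0)
          exact_mod_cast this.ne'
        rw [hnz_succ r hr s hs]
        simp only [hcc]
        rw [hupd0 r hr s, Function.update_self]
        rw [← Finset.mul_prod_erase univ (fun i : P => (if Function.update r h s i = 0 then (1 : ℝ)
            else (Nat.totient (Function.update r h s i) : ℝ)))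
          (mem_univ h), Function.update_self, if_neg hs0]
        rw [← Finset.mul_prod_erase univ (fun i : P => (if r i = 0 then (1 : ℝ) else
          ab m q z (r i) ^ 2 * (Nat.totient (r i) : ℝ))) (mem_univ h)]
        have e1 : ∏ i ∈ univ.erase h, co (Function.update r h s i)
            = ∏ i ∈ univ.erase h, co (r i) := by
          refine Finset.prod_congr rfl fun i hi => ?_
          rw [Function.update_of_ne (Finset.ne_of_mem_erase hi)]
        have e2 : ∏ i ∈ univ.erase h, (if Function.update r h s i = 0 then (1 : ℝ)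
            else (Nat.totient (Function.update r h s i) : ℝ))
            = ∏ i ∈ univ.erase h, (if r i = 0 then (1 : ℝ)
            else (Nat.totient (r i) : ℝ)) := by
          refine Finset.prod_congr rfl fun i hi => ?_
          rw [Function.update_of_ne (Finset.ne_of_mem_erase hi)]
        have e3 : (∏ i ∈ univ.erase h, co (r i)) ^ 2 * ∏ i ∈ univ.erase h,
            (if r i = 0 then (1 : ℝ) else (Nat.totient (r i) : ℝ))
            = ∏ i ∈ univ.erase h, (if r i = 0 then (1 : ℝ) else
              ab m q z (r i) ^ 2 * (Nat.totient (r i) : ℝ)) := by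
          rw [← Finset.prod_pow, ← Finset.prod_mul_distrib]
          refine Finset.prod_congr rfl fun i _ => ?_
          simp only [hco]
          split_ifs <;> ring
        rw [e1, e2, ← e3, hr0]
        simp only [if_true, one_mul]
        have hVM0 : VM M z ≠ 0 := by linarith
        field_simp
      rw [Finset.sum_congr rfl fun r hr => Finset.sum_congr rfl fun s hs => hterm r hr s hs]
      rw [Finset.sum_congr rfl fun r _ => (Finset.mul_sum _ _ _).symm, ← Finset.sum_mul,
        ← Finset.mul_sum]
      have e6 : (1 / VM M z) ^ 2 * ∑ s ∈ S, 1 / (Nat.totient s : ℝ) ≤ 1 := by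
        have e7 : (1 / VM M z) ^ 2 * ∑ s ∈ S, 1 / (Nat.totient s : ℝ) = 1 / VM M z := by
          show (1 / VM M z) ^ 2 * VM M z = _
          have hVM0 : VM M z ≠ 0 := by linarith
          field_simp
        rw [e7, div_le_one (by linarith)]
        exact hVM
      have hprod : ∀ r : P → ℕ, 0 ≤ ∏ i : P,
            (if r i = 0 then 1 else ab m q z (r i) ^ 2 * (Nat.totient (r i) : ℝ)) := by
        intro r
        refine Finset.prod_nonneg fun i _ => ?_
        split_ifs <;> positivity
      have hwb : ∀ r : P → ℕ, 0 ≤ wb2 m q y z r := by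
        intro r
        unfold wb2
        exact mul_nonneg (gg_nonneg (hnz_le r)) (hprod r)
      have hlt : ∀ r ∈ Th, 2 * (nz r + 1) ≤ y := by
        intro r hr
        have hs1 : (1 : ℕ) ∈ S := by
          simp only [hS, SS, mem_filter, mem_Ico]
          refine ⟨⟨le_rfl, Nat.one_lt_pow (by omega) (by omega)⟩, squarefree_one, ?_⟩
          intro p hp hp1
          exact absurd (Nat.dvd_one.mp hp1) hp.ne_one
        rw [← hnz_succ r hr 1 hs1]
        exact hnz_le _
      have e7 : ∑ r ∈ Th, Db m q M z (cost z r) ^ 2 * (gg y z (2 * (nz r + 1)) * ∏ i : P,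
            (if r i = 0 then 1 else ab m q z (r i) ^ 2 * (Nat.totient (r i) : ℝ))) ≤
          om y z ^ 2 * ∑ r ∈ (TB m q M z P).filter (fun r => M < cost z r + q * m),
            wb2 m q y z r := by
        rw [Finset.mul_sum]
        conv_rhs => rw [Finset.sum_filter]
        have hstep : ∀ r ∈ Th, Db m q M z (cost z r) ^ 2 * (gg y z (2 * (nz r + 1)) * ∏ i : P,
            (if r i = 0 then 1 else ab m q z (r i) ^ 2 * (Nat.totient (r i) : ℝ))) ≤
            (if M < cost z r + q * m then om y z ^ 2 * wb2 m q y z r else 0) := by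
          intro r hr
          split_ifs with hcost
          · have h1 := Db_le m q M z (cost z r) hV
            have h2 := Db_nonneg m q M z (cost z r)
            have h3 : Db m q M z (cost z r) ^ 2 ≤ 1 := pow_le_one₀ h2 h1
            have h4 : 0 ≤ gg y z (2 * (nz r + 1)) * ∏ i : P,
              (if r i = 0 then 1 else ab m q z (r i) ^ 2 * (Nat.totient (r i) : ℝ)) :=
              mul_nonneg (gg_nonneg (hlt r hr)) (hprod r)
            calc _ ≤ 1 * _ := mul_le_mul_of_nonneg_right h3 h4
              _ = _ := one_mul _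
              _ ≤ (om y z ^ 2 * gg y z (2 * nz r)) * ∏ i : P,
                  (if r i = 0 then 1 else ab m q z (r i) ^ 2 * (Nat.totient (r i) : ℝ)) :=
                mul_le_mul_of_nonneg_right (gg_succ2 (hlt r hr)) (hprod r)
              _ = _ := by
                unfold wb2
                rw [mul_assoc]
          · rw [Db_zero m q M z (cost z r) hz2 (by omega)]
            simp
        refine (Finset.sum_le_sum hstep).trans ?_
        refine Finset.sum_le_sum_of_subset_of_nonneg (Finset.filter_subset _ _) fun r _ _ => ?_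
        split_ifs
        · exact mul_nonneg (sq_nonneg _) (hwb r)
        · exact le_rfl
      have h0 : 0 ≤ ∑ r ∈ Th, Db m q M z (cost z r) ^ 2 * (gg y z (2 * (nz r + 1)) * ∏ i : P,
            (if r i = 0 then 1 else ab m q z (r i) ^ 2 * (Nat.totient (r i) : ℝ))) :=
        Finset.sum_nonneg fun r hr =>
          mul_nonneg (sq_nonneg _) (mul_nonneg (gg_nonneg (hlt r hr)) (hprod r))
      calc _ ≤ (∑ r ∈ Th, Db m q M z (cost z r) ^ 2 * (gg y z (2 * (nz r + 1)) * ∏ i : P,
            (if r i = 0 then 1 else ab m q z (r i) ^ 2 * (Nat.totient (r i) : ℝ)))) * 1 :=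
            mul_le_mul_of_nonneg_left e6 h0
        _ = _ := mul_one _
        _ ≤ _ := e7
    have hXX : 0 ≤ XQ x Q := XQ_nonneg x Q
    have h1 := (abs_le.mp hTS').2
    rw [Finset.card_singleton, Finset.card_empty, add_zero, pow_one] at h1
    rw [Finset.sum_congr rfl fun n _ => by rw [hGG n]]
    have h2 := mul_le_mul_of_nonneg_left hmain hXX
    calc _ ≤ XQ x Q * ∑ r ∈ T, cc r ^ 2 *
          (gg y z (2 * nz r) * ∏ i, (if r i = 0 then 1 else (Nat.totient (r i) : ℝ)))
          + Real.exp (-(c * E)) * om y z ^ 2 * XQ x Q := by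
          linarith
      _ ≤ _ := by
          rw [mul_add]
          have e8 : XQ x Q * om y z ^ 2 * Real.exp (-(c * E)) = Real.exp (-(c * E)) * om y z ^ 2 * XQ x Q := by
            ring
          rw [e8, mul_assoc (XQ x Q) (om y z ^ 2)]
          linarith
  · intro r' hr' i hi _
    rw [hT, mem_image] at hr'
    obtain ⟨⟨r, s⟩, hrs, rfl⟩ := hr'
    rw [mem_product] at hrs
    have hi' : i ≠ h := by simpa using hi
    simp only
    rw [Function.update_of_ne hi']
    have h1 := hrs.1
    simp only [hTh, TB, mem_filter, Fintype.mem_piFinset, mem_insert] at h1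
    exact h1.1.1 i
  · intro r' hr' i hi
    rw [hT, mem_image] at hr'
    obtain ⟨⟨r, s⟩, hrs, rfl⟩ := hr'
    rw [mem_product] at hrs
    have hi' : i = h := by simpa using hi
    subst hi'
    simp only
    rw [Function.update_self]
    exact hrs.2
  · intro r' _ i hi
    simp at hi
  · intro r' hr'
    rw [hT, mem_image] at hr'
    obtain ⟨⟨r, s⟩, hrs, rfl⟩ := hr'
    rw [mem_product] at hrs
    have h1 := hrs.1
    simp only
    rw [hnz_succ r hrs.1 s hrs.2]
    simp only [hTh, mem_filter] at h1
    have h2 := card_labels hm hz2 h1.1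
    omega
  · intro r' hr'
    rw [hT, mem_image] at hr'
    obtain ⟨⟨r, s⟩, hrs, rfl⟩ := hr'
    rw [mem_product] at hrs
    have h1 := hrs.1
    simp only [hTh, mem_filter] at h1
    have h2 := prod_labels hz2 h1.1
    have hs := hrs.2
    simp only [hS, SS, mem_filter, mem_Ico] at hs
    simp only
    rw [← Finset.mul_prod_erase univ (fun i : P => max 1 (Function.update r h s i)) (mem_univ h),
      Function.update_self]
    rw [← Finset.mul_prod_erase univ (fun i : P => max 1 (r i)) (mem_univ h)] at h2
    have e1 : ∏ i ∈ univ.erase h, max 1 (Function.update r h s i)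
        = ∏ i ∈ univ.erase h, max 1 (r i) := by
      refine Finset.prod_congr rfl fun i hi => ?_
      rw [Function.update_of_ne (Finset.ne_of_mem_erase hi)]
    rw [e1, h1.2] at *
    simp only [Nat.max_eq_left (Nat.zero_le 1), one_mul] at h2
    change _ ≤ z ^ (2 * M)
    rw [two_mul, pow_add]
    exact Nat.mul_le_mul (by omega) h2
  · intro r' hr'
    rw [hT, mem_image] at hr'
    obtain ⟨⟨r, s⟩, hrs, rfl⟩ := hr'
    rw [mem_product] at hrs
    have h1 := hrs.1
    simp only [hcc]
    rw [hupd0 r hrs.1 s]
    simp only [Finset.notMem_empty, if_false]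
    rw [← Finset.mul_prod_erase univ (fun i : P => if i ∈ ({h} : Finset P) then
      1 / (VM M z * (Nat.totient (Function.update r h s i) : ℝ)) else
      if Function.update r h s i = 0 then 1 else ab m q z (Function.update r h s i)) (mem_univ h)]
    rw [Function.update_self, if_pos (by simp), abs_mul, abs_mul,
      abs_of_nonneg (Db_nonneg m q M z _), Finset.abs_prod]
    have h2 : 0 ≤ 1 / (VM M z * (Nat.totient s : ℝ)) := by
      have := VM_nonneg M z
      positivity
    rw [abs_of_nonneg h2]
    have e1 : ∏ i ∈ univ.erase h, |co (Function.update r h s i)| =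
        ∏ i ∈ univ.erase h, (if i ∈ ({h} : Finset P) then
          1 / (VM M z * (Nat.totient (Function.update r h s i) : ℝ)) else
          if Function.update r h s i = 0 then 1 else ab m q z (Function.update r h s i)) := by
      refine Finset.prod_congr rfl fun i hi => ?_
      rw [if_neg (by simpa using Finset.ne_of_mem_erase hi)]
      simp only [hco]
      split_ifs
      · simp
      · rw [abs_neg, abs_of_nonneg (ab_nonneg _ _ _ _)]
    rw [e1]
    refine mul_le_mul_of_nonneg_right ?_ ?_
    · calc _ ≤ 1 * (1 / (VM M z * (Nat.totient s : ℝ))) :=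
            mul_le_mul_of_nonneg_right (Db_le m q M z _ hV) h2
        _ = _ := one_mul _
    · rw [← e1]
      exact Finset.prod_nonneg fun _ _ => abs_nonneg _

end Pool.Agent.Helper62.TW
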